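import Pool.Agent.LSG.StmtsF

set_option autoImplicit false

open Set Topology Filter
open scoped Pointwise Uniformity

namespace Pool.Agent.LSN.H18

open Pool.Agent.LSG

section

variable {H : Type} [Group H] [TopologicalSpace H] [IsTopologicalGroup H] (L : Subgroup H)

/-- the entourage of a neighbourhood -/
def ent (U : Set H) : Set ((H ⧸ L) × (H ⧸ L)) := {p | ∃ u ∈ U, p.2 = u • p.1}

theorem ent_mono : Monotone (ent L) := by
  rintro U U' h p ⟨u, hu, hp⟩
  exact ⟨u, h hu, hp⟩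

/-- the uniformity -/
def unif : Filter ((H ⧸ L) × (H ⧸ L)) := (𝓝 (1 : H)).lift' (ent L)

theorem mem_unif {s : Set ((H ⧸ L) × (H ⧸ L))} :
    s ∈ unif L ↔ ∃ U ∈ 𝓝 (1 : H), ent L U ⊆ s := Filter.mem_lift'_sets (ent_mono L)

theorem nhds_eq (q : H ⧸ L) : 𝓝 q = Filter.map (fun u : H => u • q) (𝓝 (1 : H)) := by
  induction q using QuotientGroup.induction_on with
  | H g =>
    have h1 : (fun u : H => u • (g : H ⧸ L)) = (fun x : H => (x : H ⧸ L)) ∘ fun u : H => u * g := by
      funext u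
      rfl
    have h2 : Filter.map (fun u : H => u * g) (𝓝 (1 : H)) = 𝓝 g := by
      have h3 := (Homeomorph.mulRight g).map_nhds_eq (1 : H)
      have h4 : (Homeomorph.mulRight g) (1 : H) = g := one_mul g
      rw [h4] at h3
      exact h3
    rw [h1, ← Filter.map_map, h2]
    exact QuotientGroup.nhds_eq L g

/-- the uniform structure -/
@[reducible]
def us : UniformSpace (H ⧸ L) where
  toTopologicalSpace := inferInstance
  uniformity := unif L
  symm := by
    intro s hs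
    obtain ⟨U, hU, hs⟩ := (mem_unif L).1 hs
    refine (mem_unif L).2 ⟨U⁻¹, inv_mem_nhds_one H hU, ?_⟩
    rintro ⟨a, b⟩ ⟨u, hu, hp⟩
    apply hs
    refine ⟨u⁻¹, hu, ?_⟩
    simp only at hp
    simp only [Prod.swap, hp, inv_smul_smul]
  comp := by
    intro s hs
    obtain ⟨U, hU, hs⟩ := (mem_unif L).1 hs
    obtain ⟨V, hV, hVU⟩ := exists_nhds_one_split hU
    refine Filter.mem_lift'_sets (fun a b hab => ?_) |>.2 ⟨ent L V, (mem_unif L).2 ⟨V, hV, le_rfl⟩, ?_⟩
    · rintro ⟨x, y⟩ ⟨z, h1, h2⟩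
      exact ⟨z, hab h1, hab h2⟩
    · rintro ⟨x, y⟩ ⟨z, ⟨u, hu, hp⟩, ⟨v, hv, hq⟩⟩
      apply hs
      refine ⟨v * u, hVU v hv u hu, ?_⟩
      simp only at hp hq
      simp only [hq, hp, mul_smul]
  nhds_eq_comap_uniformity := by
    intro q
    rw [nhds_eq L q]
    ext s
    rw [Filter.mem_map, Filter.mem_comap]
    constructor
    · intro hs
      refine ⟨{p | p.1 = q → p.2 ∈ s}, (mem_unif L).2 ⟨_, hs, ?_⟩, ?_⟩
      · rintro ⟨a, b⟩ ⟨u, hu, hp⟩ ha
        simp only at ha hp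
        simp only [hp, ha]
        exact hu
      · intro b hb
        exact hb rfl
    · rintro ⟨t, ht, hts⟩
      obtain ⟨U, hU, hs⟩ := (mem_unif L).1 ht
      filter_upwards [hU] with u hu
      exact hts (hs ⟨u, hu, rfl⟩)

end

/-- row QMN -/
theorem qmn : QmnStmt := by
  intro H _ _ _ _ L hL
  let _ : UniformSpace (H ⧸ L) := us L
  have _ : (𝓤 (H ⧸ L)).IsCountablyGenerated := by
    obtain ⟨V, hV⟩ := (𝓝 (1 : H)).exists_antitone_basis
    have h := hV.1.lift' (ent_mono L)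
    exact h.isCountablyGenerated
  have h1 : T1Space (H ⧸ L) := QuotientGroup.t1Space_iff.2 hL
  have h0 : @T0Space (H ⧸ L) (us L).toTopologicalSpace := @T1Space.t0Space _ _ h1
  exact @UniformSpace.metrizableSpace _ (us L) _ h0

end Pool.Agent.LSN.H18
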